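import Pool.Agent.H491R4.AF5

/-! # The Lang–Trotter counts of the quadratic twists `f ⊗ (D / ·)` for almost all `D` in automatic sets

Let `a_p` be the coefficients of a newform `f` as in Q1 (the theorem holds for every sequence of integers). The form twisted by
the quadratic character `(D / ·)` is again a form as in Q1, with the coefficients `(D / p) a_p` at the primes `p ∤ 2 D N`.

Here `D` runs through an arbitrary automatic set `S` (the set of the integers whose digits in a base `b` are accepted by a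
finite automaton) of more than polylogarithmic size; such sets may have as few as `N ^ c` elements below `N`, with
arbitrarily small `c > 0`. For almost all `D` in `S` the number of the primes `p ≤ x` with `(D / p) a_p = r` is half of the
number of those with `a_p = ± r`, up to `2 x ^ δ` times the square root of the latter number, for all `0 < |r| ≤ x ^ (δ / 2)`
and for all `x` up to a fixed power of `N`.

Definitions used: in `Pool.Agent.H491R4.AF` (file `Pool/Agent/H491R4/AF2.lean`): `acc b M N E`: the number of the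
integers `v < N` accepted by the automaton `M` (reading the digits of `v` in base `b`, the least significant digit first)
with the property `E`; `AlmostS b M N κ c τ P`: the proportion of the `v < N` accepted by `M` for which `c + κ v` does not
have the property `P` is at most `τ`. -/

set_option autoImplicit false

namespace Pool.Agent.Results.MP_631487_nt.AutomaticFamilies

open Finset Filter Pool.Agent.R459.Eq Pool.Agent.H491R4.AF

/-- The number of the odd primes `p ≤ x` with `a_p = r`. -/
def count (a : ℕ → ℤ) (r : ℤ) (x : ℕ) : ℕ := ((range (x + 1)).filter (fun p => p.Prime ∧ p ≠ 2 ∧ a p = r)).card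

/-- The number of the odd primes `p ≤ x` with `(D / p) a_p = r`. -/
def twistCount (a : ℕ → ℤ) (D r : ℤ) (x : ℕ) : ℕ :=
  ((range (x + 1)).filter (fun p => p.Prime ∧ p ≠ 2 ∧ jacobiSym D p * a p = r)).card

/-- **The counts of the twists.** Let `S` be the set of the integers `v ≥ 0` whose digits in base `b ≥ 2` are accepted by a
finite automaton `M`, and suppose that `S` has more than polylogarithmic size: for every `k` there are infinitely many `N`
such that more than `(log N) ^ k` elements of `S` are smaller than `N`. Let `0 < δ ≤ 1 / 2`. There are `W` and `e` such that for `κ ≠ 0` and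
all sufficiently large `X` the following holds for all `N`, all `c` and all sequences `a_p` of integers. Almost all the
`D = c + κ v` with `v ∈ S`, `v < N`, up to a proportion of at most `4 (log N) ^ e X ^ (- δ / 2)`, have for ALL `x ≥ X` with
`x ^ W ≤ N` and ALL integers `r ≠ 0` with `|r| ≤ x ^ (δ / 2)`: the number of the odd primes `p ≤ x` with `(D / p) a_p = r`
differs from half of the number `π(x; r) + π(x; -r)` of the odd primes `p ≤ x` with `a_p = ± r` by at most
`2 (max 1 (π(2 x; r) + π(2 x; -r))) ^ (1 / 2) x ^ δ`. -/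
theorem result {σ : Type} [Fintype σ] (b : ℕ) (hb : 2 ≤ b) (M : DFA ℕ σ)
    (hS : ∀ k : ℕ, ∃ᶠ N : ℕ in atTop, Real.log N ^ k < (acc b M N (fun _ => True) : ℝ))
    (δ : ℝ) (hδ : 0 < δ) (hδ1 : δ ≤ 1 / 2) : ∃ W e : ℕ, 1 ≤ W ∧
    ∀ κ : ℤ, κ ≠ 0 → ∃ X₀ : ℕ, ∀ X : ℕ, X₀ ≤ X → ∀ N : ℕ, ∀ c : ℤ, ∀ a : ℕ → ℤ,
    AlmostS b M N κ c (4 * Real.log N ^ e * (X : ℝ) ^ (-(δ / 2))) (fun D => ∀ x : ℕ, X ≤ x → x ^ W ≤ N →
      ∀ r : ℤ, r ≠ 0 → (|r| : ℝ) ≤ (x : ℝ) ^ (δ / 2) →
        |(twistCount a D r x : ℝ) - 1 / 2 * (count a r x + count a (-r) x)| ≤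
          2 * √(max 1 ((count a r (2 * x) : ℝ) + count a (-r) (2 * x))) * (x : ℝ) ^ δ) := by
  classical
  obtain ⟨W, e, hW, H⟩ := twist_count_aut b hb M hS δ hδ hδ1
  refine ⟨W, e, hW, fun κ hκ => ?_⟩
  obtain ⟨X₀, J⟩ := H κ hκ
  refine ⟨X₀, fun X hX N c a => ?_⟩
  have h8 : 4 * Real.log N ^ e * (X : ℝ) ^ (-(δ / 2)) =
      Real.log N ^ e * (2 * (X : ℝ) ^ (-(δ / 2))) + Real.log N ^ e * (2 * (X : ℝ) ^ (-(δ / 2))) := by ring
  rw [h8]
  have hJ : ∀ σ : ℤ, σ = 1 ∨ σ = -1 → AlmostS b M N κ c (Real.log N ^ e * (2 * (X : ℝ) ^ (-(δ / 2)))) (fun D => ∀ x : ℕ, X ≤ x → x ^ W ≤ N →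
      ∀ j : ℕ, j ≠ 0 → (j : ℝ) ≤ (x : ℝ) ^ (δ / 2) →
        |(twistCount a D (σ * j) x : ℝ) - 1 / 2 * (count a (σ * j) x + count a (-(σ * j)) x)| ≤
          2 * √(max 1 ((count a (σ * j) (2 * x) : ℝ) + count a (-(σ * j)) (2 * x))) * (x : ℝ) ^ δ) := by
    intro σ hσ
    have h1 := J X hX N c (fun j => {p | (a p).natAbs = j}) (fun p => if 0 < σ * a p then 1 else -1)
      (by intro p; split_ifs <;> simp) (by
      intro p j j' h h'
      rw [Set.mem_ofPred_eq] at h h'
      omega)
    refine AlmostS.mono h1 ?_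
    intro D hD x hXx hxW j hj0 hj
    have h2 := hD x hXx hxW j hj
    have hc : ∀ x : ℕ, (((pri x).filter (fun p => p ≠ 2 ∧ p ∈ {p | (a p).natAbs = j})).card : ℝ) = count a (σ * j) x + count a (-(σ * j)) x := by
      intro x
      unfold count
      rw [← Nat.cast_add, ← card_union_of_disjoint]
      · congr 2
        ext p
        simp only [mem_filter, mem_pri, mem_union, mem_range, Set.mem_ofPred_eq]
        rcases hσ with h | h <;> rw [h] <;> constructor
        · rintro ⟨⟨k1, k2⟩, k3, k4⟩
          by_cases k5 : a p = 1 * (j : ℤ)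
          · left
            exact ⟨by omega, k2, k3, k5⟩
          · right
            exact ⟨by omega, k2, k3, by omega⟩
        · rintro (⟨k1, k2, k3, k4⟩ | ⟨k1, k2, k3, k4⟩)
          · exact ⟨⟨by omega, k2⟩, k3, by omega⟩
          · exact ⟨⟨by omega, k2⟩, k3, by omega⟩
        · rintro ⟨⟨k1, k2⟩, k3, k4⟩
          by_cases k5 : a p = -1 * (j : ℤ)
          · left
            exact ⟨by omega, k2, k3, k5⟩
          · right
            exact ⟨by omega, k2, k3, by omega⟩
        · rintro (⟨k1, k2, k3, k4⟩ | ⟨k1, k2, k3, k4⟩)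
          · exact ⟨⟨by omega, k2⟩, k3, by omega⟩
          · exact ⟨⟨by omega, k2⟩, k3, by omega⟩
      · rw [Finset.disjoint_left]
        intro p hp hp'
        rw [mem_filter] at hp hp'
        have k1 := hp.2.2.2
        have k2 := hp'.2.2.2
        rcases hσ with h | h <;> rw [h] at k1 k2 <;> omega
    have ht : (((pri x).filter (fun p => p ≠ 2 ∧ p ∈ {p | (a p).natAbs = j} ∧ jacobiSym D p = if 0 < σ * a p then 1 else -1)).card : ℝ) =
        twistCount a D (σ * j) x := by
      unfold twistCount
      congr 2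
      ext p
      simp only [mem_filter, mem_pri, mem_range, Set.mem_ofPred_eq]
      rcases hσ with h | h <;> rw [h] <;> constructor
      · rintro ⟨⟨k1, k2⟩, k3, k4, k5⟩
        refine ⟨by omega, k2, k3, ?_⟩
        rw [k5]
        split_ifs with k6 <;> omega
      · rintro ⟨k1, k2, k3, k4⟩
        rcases jacobiSym.trichotomy D p with k5 | k5 | k5 <;> rw [k5] at k4 ⊢
        · omega
        · refine ⟨⟨by omega, k2⟩, k3, by omega, ?_⟩
          rw [if_pos (by omega)]
        · refine ⟨⟨by omega, k2⟩, k3, by omega, ?_⟩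
          rw [if_neg (by omega)]
      · rintro ⟨⟨k1, k2⟩, k3, k4, k5⟩
        refine ⟨by omega, k2, k3, ?_⟩
        rw [k5]
        split_ifs with k6 <;> omega
      · rintro ⟨k1, k2, k3, k4⟩
        rcases jacobiSym.trichotomy D p with k5 | k5 | k5 <;> rw [k5] at k4 ⊢
        · omega
        · refine ⟨⟨by omega, k2⟩, k3, by omega, ?_⟩
          rw [if_pos (by omega)]
        · refine ⟨⟨by omega, k2⟩, k3, by omega, ?_⟩
          rw [if_neg (by omega)]
    rw [← hc, ← hc, ← ht]
    convert h2
  refine AlmostS.mono (AlmostS.and (hJ 1 (Or.inl rfl)) (hJ (-1) (Or.inr rfl))) ?_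
  rintro D ⟨h1, h2⟩ x hXx hxW r hr0 hr
  have hj2 : ((r.natAbs : ℕ) : ℝ) = |(r : ℝ)| := by
    rw [← Int.cast_abs, Int.abs_eq_natAbs]
    rfl
  rcases Int.natAbs_eq r with h | h
  · have h3 := h1 x hXx hxW r.natAbs (by omega) (by rw [hj2]; exact hr)
    rw [one_mul, ← h] at h3
    exact h3
  · have h3 := h2 x hXx hxW r.natAbs (by omega) (by rw [hj2]; exact hr)
    rw [neg_one_mul, ← h] at h3
    exact h3

end Pool.Agent.Results.MP_631487_nt.AutomaticFamilies
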