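import Pool.Agent.R459.Tw1

/-! # The Lang–Trotter counts of the quadratic twists `f ⊗ (D / ·)` for almost all `D` in sparse families given by digits

Let `a_p` be the coefficients of a newform `f` as in Q1 (the theorem holds for every sequence of integers). The form twisted by
the quadratic character `(D / ·)` is again a form as in Q1, with the coefficients `(D / p) a_p` at the primes `p ∤ 2 D N`.

Here `D` runs through families with as few as `N ^ c` of the integers up to `N = b ^ k`, with any `c > 0`: the rearrangements of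
`k` digits, the palindromes, the integers with independent pairs of mirror digits (in particular all integers whose `i`-th
digit lies in an arbitrary set `D i` with at least two digits, for all `i`). For almost all `D` in such a family the number
of the primes `p ≤ x` with `(D / p) a_p = r` is half of the number of those with `a_p = ± r`, up to `2 x ^ δ` times the square root of
the latter number, for all `0 < |r| ≤ x ^ (δ / 2)` and for all `x` up to a fixed power of `N`. So the bound of Q1 for `f` and `± r` (in this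
range of `x`) holds if and only if it holds for almost all of these twists of `f`; for almost all twists the bound is the
same for `r` and `-r`.

Definitions used: in `Pool.Agent.R459.Eq` (file `Pool/Agent/R459/Eq6.lean`): `Almost b k κ c η τ P`: almost all the
members `c + κ v` of the three families have the property `P`, up to a proportion of at most `τ`. -/

set_option autoImplicit false

namespace Pool.Agent.Results.MP_631487_nt.DigitFamilies

open Finset Pool.Agent.R459.Eq

/-- The number of the odd primes `p ≤ x` with `a_p = r`. -/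
def count (a : ℕ → ℤ) (r : ℤ) (x : ℕ) : ℕ := ((range (x + 1)).filter (fun p => p.Prime ∧ p ≠ 2 ∧ a p = r)).card

/-- The number of the odd primes `p ≤ x` with `(D / p) a_p = r`. -/
def twistCount (a : ℕ → ℤ) (D r : ℤ) (x : ℕ) : ℕ :=
  ((range (x + 1)).filter (fun p => p.Prime ∧ p ≠ 2 ∧ jacobiSym D p * a p = r)).card

/-- **The counts of the twists.** Let `b ≥ 2`, `η > 0` and `0 < δ ≤ 1 / 2`. There is `W` such that for `κ ≠ 0` and all sufficiently large `X` the
following holds for all `k ≥ 2`, all `c` and all sequences `a_p` of integers. Almost all the members `D = c + κ v` of the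
families of integers with `k` digits described by `Almost` (the rearrangements of `k` digits, the palindromes, the integers
with independent pairs of mirror digits), up to a proportion of at most `4 X ^ (- δ / 2)`, have for ALL `x ≥ X` with `x ^ W ≤ b ^ k` and
ALL integers `r ≠ 0` with `|r| ≤ x ^ (δ / 2)`: the number of the odd primes `p ≤ x` with `(D / p) a_p = r` differs from half of the
number `π(x; r) + π(x; -r)` of the odd primes `p ≤ x` with `a_p = ± r` by at most
`2 (max 1 (π(2 x; r) + π(2 x; -r))) ^ (1 / 2) x ^ δ`. -/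
theorem result (b : ℕ) (hb : 2 ≤ b) (η : ℝ) (hη : 0 < η) (δ : ℝ) (hδ : 0 < δ) (hδ1 : δ ≤ 1 / 2) : ∃ W : ℕ, 1 ≤ W ∧
    ∀ κ : ℤ, κ ≠ 0 → ∃ X₀ : ℕ, ∀ X : ℕ, X₀ ≤ X → ∀ k : ℕ, 2 ≤ k → ∀ c : ℤ, ∀ a : ℕ → ℤ,
    Almost b k κ c η (4 * (X : ℝ) ^ (-(δ / 2))) (fun D => ∀ x : ℕ, X ≤ x → x ^ W ≤ b ^ k →
      ∀ r : ℤ, r ≠ 0 → (|r| : ℝ) ≤ (x : ℝ) ^ (δ / 2) →
        |(twistCount a D r x : ℝ) - 1 / 2 * (count a r x + count a (-r) x)| ≤
          2 * √(max 1 ((count a r (2 * x) : ℝ) + count a (-r) (2 * x))) * (x : ℝ) ^ δ) := by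
  classical
  obtain ⟨W, hW, H⟩ := Pool.Agent.R459.Tw.twist_count b hb η hη δ hδ hδ1
  refine ⟨W, hW, fun κ hκ => ?_⟩
  obtain ⟨X₀, J⟩ := H κ hκ
  refine ⟨X₀, fun X hX k hk c a => ?_⟩
  have h8 : (4 : ℝ) * (X : ℝ) ^ (-(δ / 2)) = 2 * (X : ℝ) ^ (-(δ / 2)) + 2 * (X : ℝ) ^ (-(δ / 2)) := by ring
  rw [h8]
  have hJ : ∀ σ : ℤ, σ = 1 ∨ σ = -1 → Almost b k κ c η (2 * (X : ℝ) ^ (-(δ / 2))) (fun D => ∀ x : ℕ, X ≤ x → x ^ W ≤ b ^ k →
      ∀ j : ℕ, j ≠ 0 → (j : ℝ) ≤ (x : ℝ) ^ (δ / 2) →
        |(twistCount a D (σ * j) x : ℝ) - 1 / 2 * (count a (σ * j) x + count a (-(σ * j)) x)| ≤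
          2 * √(max 1 ((count a (σ * j) (2 * x) : ℝ) + count a (-(σ * j)) (2 * x))) * (x : ℝ) ^ δ) := by
    intro σ hσ
    have h1 := J X hX k hk c (fun j => {p | (a p).natAbs = j}) (fun p => if 0 < σ * a p then 1 else -1)
      (by intro p; split_ifs <;> simp) (by
      intro p j j' h h'
      rw [Set.mem_ofPred_eq] at h h'
      omega)
    refine Almost.mono h1 ?_
    intro D hD x hXx hxW j hj0 hj
    have h2 := hD x hXx hxW j hj
    have hc : ∀ x : ℕ, (((pri x).filter (fun p => p ≠ 2 ∧ p ∈ {p | (a p).natAbs = j})).card : ℝ) = count a (σ * j) x + count a (-(σ * j)) x := by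
      intro x
      unfold count
      rw [← Nat.cast_add, ← card_union_of_disjoint]
      · congr 2
        ext p
        simp only [mem_filter, mem_pri, mem_union, mem_range, Set.mem_ofPred_eq]
        rcases hσ with h | h <;> rw [h] <;> constructor
        · rintro ⟨⟨k1, k2⟩, k3, k4⟩
          by_cases k5 : a p = 1 * (j : ℤ)
          · left
            exact ⟨by omega, k2, k3, k5⟩
          · right
            exact ⟨by omega, k2, k3, by omega⟩
        · rintro (⟨k1, k2, k3, k4⟩ | ⟨k1, k2, k3, k4⟩)
          · exact ⟨⟨by omega, k2⟩, k3, by omega⟩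
          · exact ⟨⟨by omega, k2⟩, k3, by omega⟩
        · rintro ⟨⟨k1, k2⟩, k3, k4⟩
          by_cases k5 : a p = -1 * (j : ℤ)
          · left
            exact ⟨by omega, k2, k3, k5⟩
          · right
            exact ⟨by omega, k2, k3, by omega⟩
        · rintro (⟨k1, k2, k3, k4⟩ | ⟨k1, k2, k3, k4⟩)
          · exact ⟨⟨by omega, k2⟩, k3, by omega⟩
          · exact ⟨⟨by omega, k2⟩, k3, by omega⟩
      · rw [Finset.disjoint_left]
        intro p hp hp'
        rw [mem_filter] at hp hp'
        have k1 := hp.2.2.2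
        have k2 := hp'.2.2.2
        rcases hσ with h | h <;> rw [h] at k1 k2 <;> omega
    have ht : (((pri x).filter (fun p => p ≠ 2 ∧ p ∈ {p | (a p).natAbs = j} ∧ jacobiSym D p = if 0 < σ * a p then 1 else -1)).card : ℝ) =
        twistCount a D (σ * j) x := by
      unfold twistCount
      congr 2
      ext p
      simp only [mem_filter, mem_pri, mem_range, Set.mem_ofPred_eq]
      rcases hσ with h | h <;> rw [h] <;> constructor
      · rintro ⟨⟨k1, k2⟩, k3, k4, k5⟩
        refine ⟨by omega, k2, k3, ?_⟩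
        rw [k5]
        split_ifs with k6 <;> omega
      · rintro ⟨k1, k2, k3, k4⟩
        rcases jacobiSym.trichotomy D p with k5 | k5 | k5 <;> rw [k5] at k4 ⊢
        · omega
        · refine ⟨⟨by omega, k2⟩, k3, by omega, ?_⟩
          rw [if_pos (by omega)]
        · refine ⟨⟨by omega, k2⟩, k3, by omega, ?_⟩
          rw [if_neg (by omega)]
      · rintro ⟨⟨k1, k2⟩, k3, k4, k5⟩
        refine ⟨by omega, k2, k3, ?_⟩
        rw [k5]
        split_ifs with k6 <;> omega
      · rintro ⟨k1, k2, k3, k4⟩
        rcases jacobiSym.trichotomy D p with k5 | k5 | k5 <;> rw [k5] at k4 ⊢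
        · omega
        · refine ⟨⟨by omega, k2⟩, k3, by omega, ?_⟩
          rw [if_pos (by omega)]
        · refine ⟨⟨by omega, k2⟩, k3, by omega, ?_⟩
          rw [if_neg (by omega)]
    rw [← hc, ← hc, ← ht]
    convert h2
  refine Almost.mono (Almost.and (hJ 1 (Or.inl rfl)) (hJ (-1) (Or.inr rfl))) ?_
  rintro D ⟨h1, h2⟩ x hXx hxW r hr0 hr
  have hj2 : ((r.natAbs : ℕ) : ℝ) = |(r : ℝ)| := by
    rw [← Int.cast_abs, Int.abs_eq_natAbs]
    rfl
  rcases Int.natAbs_eq r with h | h
  · have h3 := h1 x hXx hxW r.natAbs (by omega) (by rw [hj2]; exact hr)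
    rw [one_mul, ← h] at h3
    exact h3
  · have h3 := h2 x hXx hxW r.natAbs (by omega) (by rw [hj2]; exact hr)
    rw [neg_one_mul, ← h] at h3
    exact h3

end Pool.Agent.Results.MP_631487_nt.DigitFamilies
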