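import Pool.Agent.R459.Eq18
import Pool.Agent.R459.Tw1
import Pool.Agent.R418.PT.A

/-! # Joint Lang–Trotter counts of the twists of several forms by `f_1(n), ..., f_m(n)`, `n` in sparse families given by digits

Let `a_{i, p}` (`i < m`) be the coefficients of `m` newforms as in Q1 (the theorem holds for all sequences of integers), and
let `f_i` be nonconstant polynomials with integer coefficients whose product has no multiple roots. The form number `i` twisted
by the quadratic character `(f_i(n) / ·)` has the coefficients `(f_i(n) / p) a_{i, p}` at all but finitely many primes `p`.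

Here `n` runs through families with as few as `N ^ c` of the integers up to `N = b ^ k`, with any `c > 0`: the rearrangements of
`k` digits, the palindromes, the integers with independent pairs of mirror digits (in particular all integers whose `i`-th
digit lies in an arbitrary set `D i` with at least two digits, for all `i`). For almost all `n` in such a family the number
of the primes `p ≤ x` in a set `T j` with `(f_i(n) / p) a_{i, p} = r_i` for ALL `i` is `1 / 2 ^ m` times the number of those with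
`|a_{i, p}| = |r_i|` for all `i`, up to `2 x ^ δ` times the SQUARE ROOT of the latter number, for all `j`, `|r_i|` up to a power of
`x` and for all `x` up to a fixed power of `N`. The sets `T j` are any pairwise disjoint sets of primes, for instance the
residue classes modulo a fixed integer, or thin sets.

Definitions used: in `Pool.Agent.R459.Eq` (file `Pool/Agent/R459/Eq6.lean`): `Almost b k κ c η τ P`: almost all the
members `c + κ v` of the three families have the property `P`, up to a proportion of at most `τ`. -/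

set_option autoImplicit false

namespace Pool.Agent.Results.MP_631487_nt.JointTwists

open Finset Pool.Agent.R459.Eq

open Classical in
/-- The number of the odd primes `p ≤ x` in `T` with `|a_{i, p}| = |r_i|` for all `i`. -/
noncomputable def absCount {m : ℕ} (a : Fin m → ℕ → ℤ) (T : Set ℕ) (r : Fin m → ℤ) (x : ℕ) : ℕ :=
  ((range (x + 1)).filter (fun p => p.Prime ∧ p ≠ 2 ∧ p ∈ T ∧ ∀ i, |a i p| = |r i|)).card

open Classical in
/-- The number of the odd primes `p ≤ x` in `T` with `(f_i(n) / p) a_{i, p} = r_i` for all `i`. -/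
noncomputable def twistCount {m : ℕ} (f : Fin m → Polynomial ℤ) (a : Fin m → ℕ → ℤ) (T : Set ℕ) (r : Fin m → ℤ) (n : ℤ)
    (x : ℕ) : ℕ :=
  ((range (x + 1)).filter (fun p => p.Prime ∧ p ≠ 2 ∧ p ∈ T ∧ ∀ i, jacobiSym ((f i).eval n) p * a i p = r i)).card

section codes

/-- a code of an integer -/
def ec (z : ℤ) : ℕ := 2 * z.natAbs + if z < 0 then 1 else 0

lemma ec_inj {z z' : ℤ} (h : ec z = ec z') : z = z' := by
  unfold ec at h
  split_ifs at h <;> omega

lemma ec_le (z : ℤ) : ec z ≤ 2 * z.natAbs + 1 := by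
  unfold ec
  split_ifs <;> omega

/-- a code of a list -/
def encN : List ℕ → ℕ
  | [] => 0
  | a :: l => Nat.pair a (encN l)

lemma encN_inj : ∀ (l l' : List ℕ), l.length = l'.length → encN l = encN l' → l = l' := by
  intro l
  induction l with
  | nil =>
    intro l' h _
    cases l' with
    | nil => rfl
    | cons a l' => simp at h
  | cons a l ih =>
    intro l' h h'
    cases l' with
    | nil => simp at h
    | cons a' l' =>
      have h1 := Nat.pair_eq_pair.1 h'
      rw [h1.1, ih l' (by simpa using h) h1.2]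

lemma encN_le (R : ℕ) : ∀ l : List ℕ, (∀ a ∈ l, a ≤ R) → encN l + 1 ≤ (R + 1) ^ (2 ^ l.length) := by
  intro l
  induction l with
  | nil =>
    intro _
    simp [encN]
  | cons a l ih =>
    intro h
    have h1 := ih fun a' ha' => h a' (List.mem_cons_of_mem _ ha')
    have h2 := h a List.mem_cons_self
    have h3 := Nat.pair_lt_max_add_one_sq a (encN l)
    have h4 : max a (encN l) + 1 ≤ (R + 1) ^ (2 ^ l.length) := by
      have h5 : R + 1 ≤ (R + 1) ^ (2 ^ l.length) := Nat.le_self_pow (by positivity) _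
      rcases le_total a (encN l) with h6 | h6
      · rw [max_eq_right h6]
        exact h1
      · rw [max_eq_left h6]
        omega
    have h7 := Nat.pow_le_pow_left h4 2
    rw [← pow_mul, ← pow_succ] at h7
    show Nat.pair a (encN l) + 1 ≤ _
    rw [List.length_cons]
    omega

/-- the code of a vector of integers and an index -/
def code {m : ℕ} (j : ℕ) (r : Fin m → ℤ) : ℕ := encN (j :: List.ofFn (fun i => ec (r i)))

lemma code_inj {m : ℕ} {j j' : ℕ} {r r' : Fin m → ℤ} (h : code j r = code j' r') : j = j' ∧ r = r' := by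
  unfold code at h
  have h1 := encN_inj _ _ (by simp) h
  rw [List.cons.injEq] at h1
  refine ⟨h1.1, ?_⟩
  have h2 := List.ofFn_injective h1.2
  funext i
  exact ec_inj (congrFun h2 i)

lemma code_le {m : ℕ} {j R : ℕ} {r : Fin m → ℤ} (hj : j ≤ R) (hr : ∀ i, (r i).natAbs ≤ R) :
    code j r + 1 ≤ (2 * R + 2) ^ (2 ^ (m + 1)) := by
  unfold code
  have h := encN_le (2 * R + 1) (j :: List.ofFn (fun i => ec (r i))) (by
    intro a ha
    rw [List.mem_cons] at ha
    rcases ha with rfl | ha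
    · omega
    · rw [List.mem_ofFn] at ha
      obtain ⟨i, rfl⟩ := ha
      have h1 := ec_le (r i)
      have h2 := hr i
      omega)
  rw [List.length_cons, List.length_ofFn] at h
  exact h

end codes

lemma filter_pri (x : ℕ) (Q : ℕ → Prop) [DecidablePred (fun p => p.Prime ∧ Q p)] [DecidablePred Q] :
    (range (x + 1)).filter (fun p => p.Prime ∧ Q p) = (pri x).filter Q := by
  ext p
  simp only [mem_filter, mem_range, mem_pri]
  constructor
  · rintro ⟨h1, h2, h3⟩
    exact ⟨⟨by omega, h2⟩, h3⟩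
  · rintro ⟨⟨h1, h2⟩, h3⟩
    exact ⟨by omega, h2, h3⟩


lemma jac_iff {J α r : ℤ} (hr : r ≠ 0) (hJ : J = 0 ∨ J = 1 ∨ J = -1) :
    J * α = r ↔ |α| = |r| ∧ J = if 0 < α * r then 1 else -1 := by
  have hrr : 0 < r * r := mul_self_pos.2 hr
  constructor
  · intro h
    rcases hJ with h0 | h0 | h0 <;> rw [h0] at h
    · exfalso
      apply hr
      rw [← h, zero_mul]
    · have h1 : α = r := by linarith
      rw [h1, if_pos hrr]
      exact ⟨rfl, h0⟩
    · have h1 : α = -r := by linarith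
      have h2 : ¬ (0 < α * r) := by
        rw [h1]
        linarith
      rw [if_neg h2, h1, abs_neg]
      exact ⟨rfl, h0⟩
  · rintro ⟨h1, h2⟩
    rcases abs_eq_abs.1 h1 with h3 | h3
    · rw [h2, h3, if_pos hrr, one_mul]
    · have h4 : ¬ (0 < α * r) := by
        rw [h3]
        linarith
      rw [h2, if_neg h4, h3]
      ring

lemma jac_eval_per (f : Polynomial ℤ) {p : ℕ} (hp : p.Prime) {n n' : ℤ} (h : (p : ℤ) ∣ n - n') :
    jacobiSym (f.eval n) p = jacobiSym (f.eval n') p :=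
  Pool.Agent.R459.Tw.jac_per hp (h.trans (Polynomial.sub_dvd_eval_sub n n' f))

/-- **The joint counts of the twists of several forms.** Let `b ≥ 2`, `η > 0` and `0 < δ ≤ 1 / 2`. There is `W` such that for `κ ≠ 0`,
`m ≥ 1`, all nonconstant polynomials `f_i` (`i < m`) with integer coefficients whose product has no multiple roots, and all
sufficiently large `X` the following holds for all `k ≥ 2`, all `c`, all sequences `a_{i, p}` of integers and all pairwise disjoint sets
`T_0, T_1, ...`. Almost all the members `n = c + κ v` of the families of integers with `k` digits described by `Almost` (the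
rearrangements of `k` digits, the palindromes, the integers with independent pairs of mirror digits), up to a proportion of
at most `2 X ^ (- δ / 2)`, have for ALL `x ≥ X` with `x ^ W ≤ b ^ k`, ALL `j ≤ x ^ θ` and ALL integers `r_i ≠ 0` with `|r_i| ≤ x ^ θ`,
`θ = δ / 2 ^ (m + 3)`: the number of the odd primes `p ≤ x` in `T_j` with `(f_i(n) / p) a_{i, p} = r_i` for all `i` differs from
`1 / 2 ^ m` times the number `π(x)` of the odd primes `p ≤ x` in `T_j` with `|a_{i, p}| = |r_i|` for all `i` by at most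
`2 (max 1 π(2 x)) ^ (1 / 2) x ^ δ`. -/
theorem result (b : ℕ) (hb : 2 ≤ b) (η : ℝ) (hη : 0 < η) (δ : ℝ) (hδ : 0 < δ) (hδ1 : δ ≤ 1 / 2) : ∃ W : ℕ, 1 ≤ W ∧
    ∀ κ : ℤ, κ ≠ 0 → ∀ m : ℕ, 1 ≤ m → ∀ f : Fin m → Polynomial ℤ, (∀ i, 1 ≤ (f i).natDegree) →
    ((∏ i, f i).map (Int.castRingHom ℚ)).Separable →
    ∃ X₀ : ℕ, ∀ X : ℕ, X₀ ≤ X → ∀ k : ℕ, 2 ≤ k → ∀ c : ℤ, ∀ a : Fin m → ℕ → ℤ,
    ∀ T : ℕ → Set ℕ, (∀ p j j', p ∈ T j → p ∈ T j' → j = j') →
    Almost b k κ c η (2 * (X : ℝ) ^ (-(δ / 2))) (fun n => ∀ x : ℕ, X ≤ x → x ^ W ≤ b ^ k →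
      ∀ j : ℕ, (j : ℝ) ≤ (x : ℝ) ^ (δ / 2 ^ (m + 3)) →
      ∀ r : Fin m → ℤ, (∀ i, r i ≠ 0) → (∀ i, (|r i| : ℝ) ≤ (x : ℝ) ^ (δ / 2 ^ (m + 3))) →
        |(twistCount f a (T j) r n x : ℝ) - 1 / 2 ^ m * absCount a (T j) r x| ≤
          2 * √(max 1 (absCount a (T j) r (2 * x))) * (x : ℝ) ^ δ) := by
  classical
  obtain ⟨W, hW, H⟩ := fine_many b hb η hη δ hδ hδ1
  refine ⟨W, hW, fun κ hκ m hm f hfd hsep => ?_⟩
  obtain ⟨X₀, J⟩ := H κ hκ
  have hbad0 := Pool.Agent.R418.UP.bad_ne_zero _ hsep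
  obtain ⟨B, hB⟩ : ∃ B : ℕ, B = (Pool.Agent.R418.UP.bad (∏ i, f i)).natAbs := ⟨_, rfl⟩
  have hB0 : 0 < B := by rw [hB]; exact Int.natAbs_pos.2 hbad0
  obtain ⟨dF, hdF⟩ : ∃ dF : ℕ, dF = (∏ i, f i).natDegree := ⟨_, rfl⟩
  obtain ⟨X₁, hX₁⟩ : ∃ X₁ : ℕ, ∀ x : ℕ, X₁ ≤ x → (4 : ℝ) ^ (2 ^ (m + 1)) ≤ (x : ℝ) ^ (δ / 4) := by
    have h1 := ((tendsto_rpow_atTop (show 0 < δ / 4 by positivity)).comp tendsto_natCast_atTop_atTop).eventually_ge_atTop
      ((4 : ℝ) ^ (2 ^ (m + 1)))
    obtain ⟨X₁, hX₁⟩ := Filter.eventually_atTop.1 h1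
    exact ⟨X₁, hX₁⟩
  obtain ⟨X₂, hX₂⟩ : ∃ X₂ : ℕ, ∀ x : ℕ, X₂ ≤ x → (4 * dF + B : ℝ) ≤ (x : ℝ) ^ δ := by
    have h1 := ((tendsto_rpow_atTop hδ).comp tendsto_natCast_atTop_atTop).eventually_ge_atTop (4 * dF + B : ℝ)
    obtain ⟨X₂, hX₂⟩ := Filter.eventually_atTop.1 h1
    exact ⟨X₂, hX₂⟩
  refine ⟨X₀ + X₁ + X₂ + 1, fun X hX k hk c a T hT => ?_⟩
  -- the indicator functions
  obtain ⟨G, hG⟩ : ∃ G : ℕ → ℕ → ℤ → ℝ, G = fun J p n =>
    if ∃ (j : ℕ) (r : Fin m → ℤ), code j r = J ∧ p ≠ 2 ∧ p ∈ T j ∧ ∀ i, jacobiSym ((f i).eval n) p * a i p = r i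
      then 1 else 0 := ⟨_, rfl⟩
  have hGval : ∀ (j : ℕ) (r : Fin m → ℤ) (p : ℕ) (n : ℤ), G (code j r) p n =
      if p ≠ 2 ∧ p ∈ T j ∧ ∀ i, jacobiSym ((f i).eval n) p * a i p = r i then 1 else 0 := by
    intro j r p n
    rw [hG]
    simp only
    congr 1
    rw [eq_iff_iff]
    constructor
    · rintro ⟨j', r', h, h1, h2⟩
      obtain ⟨rfl, rfl⟩ := code_inj h
      exact ⟨h1, h2⟩
    · rintro ⟨h1, h2⟩
      exact ⟨j, r, rfl, h1, h2⟩
  have h1 := J X (by omega) k hk c G (by
    intro J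
    constructor
    · intro p hp n n' h
      rw [hG]
      simp only
      congr 1
      rw [eq_iff_iff]
      apply exists_congr
      intro j
      apply exists_congr
      intro r
      have h3 : ∀ i, jacobiSym ((f i).eval n) p = jacobiSym ((f i).eval n') p := fun i => jac_eval_per (f i) hp h
      simp only [h3]
    · intro p _ n
      rw [hG]
      simp only
      split_ifs <;> norm_num) (by
    intro p hp n M
    have h2 : ∑ J ∈ range M, (G J p n) ^ 2 ≤ 1 := by
      have e : ∀ J, (G J p n) ^ 2 = if ∃ (j : ℕ) (r : Fin m → ℤ), code j r = J ∧ p ≠ 2 ∧ p ∈ T j ∧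
          ∀ i, jacobiSym ((f i).eval n) p * a i p = r i then 1 else 0 := by
        intro J
        rw [hG]
        simp only
        split_ifs <;> norm_num
      simp only [e]
      rw [sum_boole]
      have h3 : ((range M).filter (fun J => ∃ (j : ℕ) (r : Fin m → ℤ), code j r = J ∧ p ≠ 2 ∧ p ∈ T j ∧
          ∀ i, jacobiSym ((f i).eval n) p * a i p = r i)).card ≤ 1 := by
        rw [card_le_one]
        intro J hJ J' hJ'
        obtain ⟨j, r, h4, _, h5, h6⟩ := (mem_filter.1 hJ).2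
        obtain ⟨j', r', h4', _, h5', h6'⟩ := (mem_filter.1 hJ').2
        have h7 := hT p j j' h5 h5'
        have h8 : r = r' := by
          funext i
          rw [← h6 i, ← h6' i]
        rw [← h4, ← h4', h7, h8]
      exact_mod_cast h3
    have h3 : (0 : ℝ) ≤ Nat.log 2 p := Nat.cast_nonneg _
    linarith)
  refine Almost.mono h1 ?_
  intro n hn x hXx hxW j hj r hr0 hr
  have hx1 : 1 ≤ x := by omega
  have hxr : (1 : ℝ) ≤ x := by exact_mod_cast hx1
  obtain ⟨θ, hθ⟩ : ∃ θ : ℝ, θ = δ / 2 ^ (m + 3) := ⟨_, rfl⟩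
  rw [← hθ] at hj hr
  have hθ0 : 0 < θ := by rw [hθ]; positivity
  have hy1 : 1 ≤ (x : ℝ) ^ θ := Real.one_le_rpow hxr hθ0.le
  -- the size of the code
  have hcode : ((code j r : ℕ) : ℝ) ≤ (x : ℝ) ^ (δ / 2) := by
    obtain ⟨R, hR⟩ : ∃ R : ℕ, R = ⌊(x : ℝ) ^ θ⌋₊ := ⟨_, rfl⟩
    have hRle : (R : ℝ) ≤ (x : ℝ) ^ θ := by
      rw [hR]
      exact Nat.floor_le (by positivity)
    have h2 : j ≤ R := by
      rw [hR]
      exact Nat.le_floor hj
    have h3 : ∀ i, (r i).natAbs ≤ R := by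
      intro i
      rw [hR]
      apply Nat.le_floor
      have h4 := hr i
      rw [Nat.cast_natAbs]
      push_cast
      exact h4
    have h4 : ((code j r : ℕ) : ℝ) + 1 ≤ (2 * (R : ℝ) + 2) ^ (2 ^ (m + 1)) := by exact_mod_cast code_le h2 h3
    have h5 : (2 * (R : ℝ) + 2) ^ (2 ^ (m + 1)) ≤ (4 * (x : ℝ) ^ θ) ^ (2 ^ (m + 1)) := by
      apply pow_le_pow_left₀ (by positivity)
      linarith
    have h6 : ((x : ℝ) ^ θ) ^ (2 ^ (m + 1)) = (x : ℝ) ^ (δ / 4) := by
      rw [← Real.rpow_natCast, ← Real.rpow_mul (by linarith), hθ]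
      congr 1
      push_cast
      rw [pow_add (2 : ℝ) m 3, pow_add (2 : ℝ) m 1]
      field_simp
      norm_num
    rw [mul_pow, h6] at h5
    have h7 : (4 : ℝ) ^ (2 ^ (m + 1)) * (x : ℝ) ^ (δ / 4) ≤ (x : ℝ) ^ (δ / 4) * (x : ℝ) ^ (δ / 4) :=
      mul_le_mul_of_nonneg_right (hX₁ x (by omega)) (by positivity)
    have h8 : (x : ℝ) ^ (δ / 4) * (x : ℝ) ^ (δ / 4) = (x : ℝ) ^ (δ / 2) := by
      rw [← Real.rpow_add (by linarith)]
      congr 1
      ring
    linarith
  have h2 := (hn x hXx hxW).2 (code j r) hcode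
  obtain ⟨S, hS⟩ : ∃ S : ℕ → Finset ℕ, S = fun y => (pri y).filter (fun p => p ≠ 2 ∧ p ∈ T j ∧ ∀ i, |a i p| = |r i|) := ⟨_, rfl⟩
  have hScard : ∀ y, (absCount a (T j) r y : ℝ) = ((S y).card : ℝ) := by
    intro y
    unfold absCount
    rw [hS, filter_pri y (fun p => p ≠ 2 ∧ p ∈ T j ∧ ∀ i, |a i p| = |r i|)]
  -- the sign vector
  obtain ⟨s, hs⟩ : ∃ s : ℕ → Fin m → ℤ, s = fun p i => if 0 < a i p * r i then 1 else -1 := ⟨_, rfl⟩
  have hs1 : ∀ p i, s p i = 1 ∨ s p i = -1 := by
    intro p i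
    rw [hs]
    simp only
    split_ifs <;> simp
  have htri : ∀ (z : ℤ) (p : ℕ), jacobiSym z p = 0 ∨ jacobiSym z p = 1 ∨ jacobiSym z p = -1 := fun z p =>
    jacobiSym.trichotomy z p
  have hGS : ∀ (p : ℕ) (n : ℤ), G (code j r) p n = if (p ≠ 2 ∧ p ∈ T j ∧ ∀ i, |a i p| = |r i|) ∧
      (∀ i, jacobiSym ((f i).eval n) p = s p i) then 1 else 0 := by
    intro p n
    rw [hGval]
    congr 1
    rw [eq_iff_iff]
    constructor
    · rintro ⟨k1, k2, k3⟩
      have k4 := fun i => (jac_iff (hr0 i) (htri _ _)).1 (k3 i)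
      refine ⟨⟨k1, k2, fun i => (k4 i).1⟩, fun i => ?_⟩
      rw [hs]
      exact (k4 i).2
    · rintro ⟨⟨k1, k2, k3⟩, k4⟩
      refine ⟨k1, k2, fun i => (jac_iff (hr0 i) (htri _ _)).2 ⟨k3 i, ?_⟩⟩
      rw [k4 i, hs]
  have hmean : ∀ p, mean p (G (code j r) p) = if (p ≠ 2 ∧ p ∈ T j ∧ ∀ i, |a i p| = |r i|) then
      (∑ t ∈ range p, (if ∀ i, jacobiSym ((f i).eval (t : ℤ)) p = s p i then (1 : ℝ) else 0)) / p else 0 := by
    intro p
    unfold mean
    simp only [hGS]
    by_cases h : (p ≠ 2 ∧ p ∈ T j ∧ ∀ i, |a i p| = |r i|)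
    · rw [if_pos h]
      congr 1
      apply sum_congr rfl
      intro t _
      congr 1
      rw [eq_iff_iff]
      exact ⟨fun k1 => k1.2, fun k1 => ⟨h, k1⟩⟩
    · rw [if_neg h]
      have : ∀ t ∈ range p, (if (p ≠ 2 ∧ p ∈ T j ∧ ∀ i, |a i p| = |r i|) ∧
          (∀ i, jacobiSym ((f i).eval (t : ℤ)) p = s p i) then (1 : ℝ) else 0) = 0 := by
        intro t _
        rw [if_neg (fun k1 => h k1.1)]
      rw [sum_congr rfl this, sum_const_zero, zero_div]
  have hmean01 : ∀ p, 0 ≤ mean p (G (code j r) p) ∧ mean p (G (code j r) p) ≤ if (p ≠ 2 ∧ p ∈ T j ∧ ∀ i, |a i p| = |r i|) then 1 else 0 := by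
    intro p
    rw [hmean]
    by_cases h : (p ≠ 2 ∧ p ∈ T j ∧ ∀ i, |a i p| = |r i|)
    · rw [if_pos h, if_pos h]
      rcases Nat.eq_zero_or_pos p with h0 | h0
      · rw [h0]
        simp
      · have hp0 : (0 : ℝ) < p := by exact_mod_cast h0
        constructor
        · apply div_nonneg _ hp0.le
          apply sum_nonneg
          intro t _
          split_ifs <;> norm_num
        · rw [div_le_one hp0]
          have : ∑ t ∈ range p, (if ∀ i, jacobiSym ((f i).eval (t : ℤ)) p = s p i then (1 : ℝ) else 0) ≤ ∑ t ∈ range p, (1 : ℝ) := by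
            apply sum_le_sum
            intro t _
            split_ifs <;> norm_num
          rw [sum_const, card_range, nsmul_eq_mul, mul_one] at this
          exact this
    · rw [if_neg h, if_neg h]
      exact ⟨le_rfl, le_rfl⟩
  have hVs : Vs (G (code j r)) (2 * x) ≤ absCount a (T j) r (2 * x) := by
    rw [hScard, hS, card_filter]
    push_cast
    unfold Vs
    apply sum_le_sum
    intro p _
    have h3 : mean p (fun n => (G (code j r) p n) ^ 2) = mean p (G (code j r) p) := by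
      unfold mean
      congr 1
      apply sum_congr rfl
      intro t _
      show (G (code j r) p (t : ℤ)) ^ 2 = G (code j r) p (t : ℤ)
      rw [hGval]
      split_ifs <;> norm_num
    rw [h3]
    exact (hmean01 p).2
  have hcount : ∑ p ∈ pri x, G (code j r) p n = (twistCount f a (T j) r n x : ℝ) := by
    unfold twistCount
    rw [filter_pri x (fun p => p ≠ 2 ∧ p ∈ T j ∧ ∀ i, jacobiSym ((f i).eval n) p * a i p = r i)]
    simp only [hGval]
    rw [sum_boole]
  -- the main term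
  have hmain : |∑ p ∈ pri x, mean p (G (code j r) p) - 1 / 2 ^ m * ((S x).card : ℝ)| ≤ 4 * dF * √((S x).card : ℝ) + B := by
    have e1 : ∑ p ∈ pri x, mean p (G (code j r) p) = ∑ p ∈ S x, mean p (G (code j r) p) := by
      rw [hS, sum_filter]
      apply sum_congr rfl
      intro p _
      by_cases h : (p ≠ 2 ∧ p ∈ T j ∧ ∀ i, |a i p| = |r i|)
      · rw [if_pos h]
      · rw [if_neg h, hmean, if_neg h]
    have e2 : 1 / 2 ^ m * ((S x).card : ℝ) = ∑ p ∈ S x, (1 / 2 ^ m : ℝ) := by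
      rw [sum_const, nsmul_eq_mul, mul_comm]
    rw [e1, e2, ← sum_sub_distrib]
    refine (abs_sum_le_sum_abs _ _).trans ?_
    have h3 : ∀ p ∈ S x, |mean p (G (code j r) p) - 1 / 2 ^ m| ≤ 2 * dF * (1 / √(p : ℝ)) + if p ≤ B then 1 else 0 := by
      intro p hp
      rw [hS, mem_filter, mem_pri] at hp
      have hpp := hp.1.2
      have hp0 : (0 : ℝ) < p := by exact_mod_cast hpp.pos
      have hs0 : 0 < √(p : ℝ) := Real.sqrt_pos.2 hp0
      have hss : √(p : ℝ) * √(p : ℝ) = p := Real.mul_self_sqrt hp0.le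
      by_cases hpB : (p : ℤ) ∣ Pool.Agent.R418.UP.bad (∏ i, f i)
      · have h4 : p ≤ B := by
          rw [hB]
          exact Nat.le_of_dvd (Int.natAbs_pos.2 hbad0) (Int.natCast_dvd.1 hpB)
        rw [if_pos h4]
        have h5 := hmean01 p
        rw [if_pos hp.2] at h5
        have h6 : (0 : ℝ) ≤ 1 / 2 ^ m := by positivity
        have h7 : (1 : ℝ) / 2 ^ m ≤ 1 := by
          rw [div_le_one (by positivity)]
          exact one_le_pow₀ (by norm_num)
        have h8 : 0 ≤ 2 * (dF : ℝ) * (1 / √(p : ℝ)) := by positivity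
        rw [abs_le]
        constructor <;> linarith [h5.1, h5.2]
      · have h4 := Pool.Agent.R418.PT.mean_signs hm f hfd p hpp hp.2.1 hpB (s p) (hs1 p)
        have h5 : mean p (G (code j r) p) - 1 / 2 ^ m =
            (∑ t ∈ range p, (if ∀ i, jacobiSym ((f i).eval (t : ℤ)) p = s p i then (1 : ℝ) else 0) - (p : ℝ) / 2 ^ m) / p := by
          rw [hmean, if_pos hp.2]
          field_simp
        rw [h5, abs_div, abs_of_pos hp0]
        have h6 : (0 : ℝ) ≤ if p ≤ B then 1 else 0 := by split_ifs <;> norm_num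
        have h7 : |∑ t ∈ range p, (if ∀ i, jacobiSym ((f i).eval (t : ℤ)) p = s p i then (1 : ℝ) else 0) - (p : ℝ) / 2 ^ m| / p ≤
            2 * dF * (1 / √(p : ℝ)) := by
          rw [div_le_iff₀ hp0]
          refine h4.trans (le_of_eq ?_)
          rw [← hdF]
          nth_rewrite 3 [← hss]
          field_simp
        linarith
    refine (sum_le_sum h3).trans ?_
    rw [sum_add_distrib, ← mul_sum]
    have h4 := Pool.Agent.R418.PT.sum_inv_sqrt_le (S x) (by
      intro p hp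
      rw [hS, mem_filter, mem_pri] at hp
      exact hp.1.2.one_le)
    have h5 : ∑ p ∈ S x, (if p ≤ B then (1 : ℝ) else 0) ≤ B := by
      rw [sum_boole]
      have h6 : (S x).filter (fun p => p ≤ B) ⊆ Icc 1 B := by
        intro p hp
        rw [mem_filter, hS, mem_filter, mem_pri] at hp
        rw [mem_Icc]
        exact ⟨hp.1.1.2.one_le, hp.2⟩
      have h7 := card_le_card h6
      rw [Nat.card_Icc, Nat.add_sub_cancel] at h7
      exact_mod_cast h7
    have h6 : 2 * (dF : ℝ) * ∑ p ∈ S x, 1 / √(p : ℝ) ≤ 2 * dF * (2 * √((S x).card : ℝ)) :=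
      mul_le_mul_of_nonneg_left h4 (by positivity)
    linarith
  rw [sum_sub_distrib, hcount] at h2
  rw [hScard, hScard]
  have hxd : (4 * dF + B : ℝ) ≤ (x : ℝ) ^ δ := hX₂ x (by omega)
  have hSmono : ((S x).card : ℝ) ≤ ((S (2 * x)).card : ℝ) := by
    have : S x ⊆ S (2 * x) := by
      intro p hp
      rw [hS, mem_filter, mem_pri] at hp ⊢
      exact ⟨⟨by omega, hp.1.2⟩, hp.2⟩
    exact_mod_cast card_le_card this
  obtain ⟨Mx, hMx⟩ : ∃ Mx : ℝ, Mx = √(max 1 ((S (2 * x)).card : ℝ)) := ⟨_, rfl⟩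
  have hM1 : 1 ≤ Mx := by
    rw [hMx, Real.one_le_sqrt]
    exact le_max_left _ _
  have hM2 : √((S x).card : ℝ) ≤ Mx := by
    rw [hMx]
    exact Real.sqrt_le_sqrt (hSmono.trans (le_max_right _ _))
  have hM3 : √(max 1 (Vs (G (code j r)) (2 * x))) ≤ Mx := by
    rw [hMx]
    apply Real.sqrt_le_sqrt
    apply max_le_max le_rfl
    rw [← hScard]
    exact hVs
  rw [← hMx]
  have hx0 : 0 ≤ (x : ℝ) ^ δ := by positivity
  have k1 : √(max 1 (Vs (G (code j r)) (2 * x))) * (x : ℝ) ^ δ ≤ Mx * (x : ℝ) ^ δ := mul_le_mul_of_nonneg_right hM3 hx0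
  have k2 : 4 * dF * √((S x).card : ℝ) + B ≤ Mx * (x : ℝ) ^ δ := by
    calc 4 * dF * √((S x).card : ℝ) + B ≤ 4 * dF * Mx + B * Mx := by
          apply add_le_add
          · exact mul_le_mul_of_nonneg_left hM2 (by positivity)
          · exact le_mul_of_one_le_right (by positivity) hM1
      _ = Mx * (4 * dF + B) := by ring
      _ ≤ Mx * (x : ℝ) ^ δ := mul_le_mul_of_nonneg_left hxd (by linarith)
  rw [abs_le] at h2 hmain ⊢
  constructor <;> linarith [h2.1, h2.2, hmain.1, hmain.2]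

end Pool.Agent.Results.MP_631487_nt.JointTwists
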