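import Mathlib
import Pool.Agent.R429.TL.Equiv

/-!
# The Lang–Trotter bound in families of quadratic twists: a tiny proportion of the twists decides

Nothing is used besides Mathlib in the statement.
-/

set_option autoImplicit false

namespace Pool.Agent.Results.MP_631487_nt.TwistDichotomy

open Finset Filter Pool.Agent.R429.TL

noncomputable section

/-- The number of the primes `p ≤ x` with `a_p = t`. -/
def piF (a : ℕ → ℤ) (t : ℤ) (x : ℕ) : ℕ := ((range (x + 1)).filter (fun p => p.Prime ∧ a p = t)).card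

/-- The number of the odd primes `p ≤ x` with `(D / p) a_p = t`. -/
def piTwist (a : ℕ → ℤ) (D t : ℤ) (x : ℕ) : ℕ :=
  ((range (x + 1)).filter (fun p => p.Prime ∧ p ≠ 2 ∧ jacobiSym D p * a p = t)).card

/-- `Mean a t Q`: the mean of the numbers of the primes with coefficient `t` and `-t`, divided by `√x / log x`, has the property
`Q η` for all large `x` (every `η > 0`). -/
def Mean (a : ℕ → ℤ) (t : ℤ) (Q : ℝ → ℝ → Prop) : Prop :=
  ∀ η : ℝ, 0 < η → ∀ᶠ x : ℕ in atTop, Q η (((piF a t x : ℝ) + piF a (-t) x) / (2 * (√x / Real.log x)))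

/-- `Range a t Q`: for every `η > 0` there are `C` and `c > 0` such that for all large `N` and all `D`, `0 < |D| ≤ N`, up to
`N ^ (1 - c)` exceptions the number for the twist by `D`, divided by `√x / log x`, has the property `Q η` for all `x` between
`(log N) ^ C` and `N ^ c`. -/
def Range (a : ℕ → ℤ) (t : ℤ) (Q : ℝ → ℝ → Prop) : Prop :=
  ∀ η : ℝ, 0 < η → ∃ C c : ℝ, 0 < c ∧ ∀ᶠ N : ℕ in atTop,
    (({D : ℤ | D ≠ 0 ∧ |D| ≤ N ∧ ∃ x : ℕ, (Real.log N) ^ C ≤ x ∧ (x : ℝ) ≤ (N : ℝ) ^ c ∧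
      ¬ Q η ((piTwist a D t x : ℝ) / (√x / Real.log x))}.ncard : ℕ) : ℝ) ≤ (N : ℝ) ^ (1 - c)

/-- `Most a t Q`: for every `η > 0` and `A`, for all large `x` and then all large `N`, the number for the twist by `D`
has the property `Q η` at `x` for all but at most `x ^ (-A) N` of the `D` with `0 < |D| ≤ N`. -/
def Most (a : ℕ → ℤ) (t : ℤ) (Q : ℝ → ℝ → Prop) : Prop :=
  ∀ η : ℝ, 0 < η → ∀ A : ℝ, ∀ᶠ x : ℕ in atTop, ∀ᶠ N : ℕ in atTop,
    (({D : ℤ | D ≠ 0 ∧ |D| ≤ N ∧ ¬ Q η ((piTwist a D t x : ℝ) / (√x / Real.log x))}.ncard : ℕ) : ℝ) ≤ (x : ℝ) ^ (-A) * N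

/-- `Some a t Q`: for every `η > 0` there is an `A` such that for all large `x` there are arbitrarily large `N`, for which the
number for the twist by `D` has the property `Q η` at `x` for at least `x ^ (-A) N` of the `D` with `0 < |D| ≤ N`. -/
def Some (a : ℕ → ℤ) (t : ℤ) (Q : ℝ → ℝ → Prop) : Prop :=
  ∀ η : ℝ, 0 < η → ∃ A : ℝ, ∀ᶠ x : ℕ in atTop, ∃ᶠ N : ℕ in atTop,
    (x : ℝ) ^ (-A) * N ≤ (({D : ℤ | D ≠ 0 ∧ |D| ≤ N ∧ Q η ((piTwist a D t x : ℝ) / (√x / Real.log x))}.ncard : ℕ) : ℝ)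

/-- the odd primes up to `x` -/
def PO (x : ℕ) : Finset ℕ := (range (x + 1)).filter (fun p => p.Prime ∧ p ≠ 2)

lemma PO_prop (x : ℕ) : ∀ p ∈ PO x, p.Prime ∧ p ≠ 2 ∧ p ≤ x := by
  intro p hp
  unfold PO at hp
  rw [mem_filter, mem_range] at hp
  exact ⟨hp.2.1, hp.2.2, by omega⟩

lemma twist_eq (a : ℕ → ℤ) (D t : ℤ) (ht : t ≠ 0) (x : ℕ) :
    piTwist a D t x = cnt (PO x) (fun p => a p = t) (fun p => a p = -t) D := by
  unfold piTwist cnt PO
  refine congrArg card (Finset.ext fun p => ?_)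
  simp only [mem_filter, and_assoc]
  apply and_congr_right
  intro _
  rw [← and_assoc, ← and_assoc]
  constructor
  · rintro ⟨⟨hp, hp2⟩, h⟩
    refine ⟨⟨hp, hp2⟩, ?_⟩
    rcases jacobiSym.trichotomy D p with hj | hj | hj
    · rw [hj, zero_mul] at h; exact absurd h.symm ht
    · left; rw [hj, one_mul] at h; exact ⟨hj, h⟩
    · right; rw [hj] at h; exact ⟨hj, by omega⟩
  · rintro ⟨⟨hp, hp2⟩, ⟨hj, h⟩ | ⟨hj, h⟩⟩
    · exact ⟨⟨hp, hp2⟩, by rw [hj, h, one_mul]⟩
    · exact ⟨⟨hp, hp2⟩, by rw [hj, h]; ring⟩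

lemma tot_piF (a : ℕ → ℤ) (t : ℤ) (ht : t ≠ 0) (x : ℕ) :
    (tot (PO x) (fun p => a p = t) (fun p => a p = -t) : ℝ) ≤ (piF a t x : ℝ) + piF a (-t) x ∧
    (piF a t x : ℝ) + piF a (-t) x ≤ (tot (PO x) (fun p => a p = t) (fun p => a p = -t) : ℝ) + 2 := by
  classical
  have h1 : ∀ s : ℤ, ((PO x).filter (fun p => a p = s)).card ≤ piF a s x := by
    intro s
    unfold piF PO
    rw [filter_filter]
    apply card_le_card
    intro p hp
    rw [mem_filter] at hp ⊢
    exact ⟨hp.1, hp.2.1.1, hp.2.2⟩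
  have h2 : ∀ s : ℤ, piF a s x ≤ ((PO x).filter (fun p => a p = s)).card + 1 := by
    intro s
    unfold piF PO
    rw [filter_filter]
    calc ((range (x + 1)).filter (fun p => p.Prime ∧ a p = s)).card
        ≤ (insert 2 ((range (x + 1)).filter (fun p => (p.Prime ∧ p ≠ 2) ∧ a p = s))).card := by
          apply card_le_card
          intro p hp
          rw [mem_filter] at hp
          rw [mem_insert, mem_filter]
          by_cases h : p = 2
          · left; exact h
          · right; exact ⟨hp.1, ⟨hp.2.1, h⟩, hp.2.2⟩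
      _ ≤ _ := card_insert_le _ _
  have h3 := h1 t
  have h4 := h1 (-t)
  have h5 := h2 t
  have h6 := h2 (-t)
  have e : tot (PO x) (fun p => a p = t) (fun p => a p = -t) =
    ((PO x).filter (fun p => a p = t)).card + ((PO x).filter (fun p => a p = -t)).card := by
    unfold tot
    congr
  rw [e]
  constructor
  · exact_mod_cast add_le_add h3 h4
  · have : piF a t x + piF a (-t) x ≤ ((PO x).filter (fun p => a p = t)).card + ((PO x).filter (fun p => a p = -t)).card + 2 := by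
      omega
    exact_mod_cast this

lemma g_ge : ∀ᶠ x : ℕ in atTop, (x : ℝ) ^ (1 / 4 : ℝ) ≤ √x / Real.log x := by
  have h := (isLittleO_log_rpow_atTop (by norm_num : (0 : ℝ) < 1 / 4)).comp_tendsto (tendsto_natCast_atTop_atTop (R := ℝ))
  filter_upwards [h.bound (c := 1) one_pos, eventually_ge_atTop 3] with x hx hx3
  simp only [Function.comp_apply, one_mul] at hx
  have hx0 : (3 : ℝ) ≤ x := by exact_mod_cast hx3
  have hl : 0 < Real.log x := Real.log_pos (by linarith)
  rw [Real.norm_of_nonneg hl.le, Real.norm_of_nonneg (by positivity)] at hx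
  rw [le_div_iff₀ hl]
  calc (x : ℝ) ^ (1 / 4 : ℝ) * Real.log x ≤ (x : ℝ) ^ (1 / 4 : ℝ) * (x : ℝ) ^ (1 / 4 : ℝ) := by gcongr
    _ = √x := by rw [← Real.rpow_add (by linarith), Real.sqrt_eq_rpow]; norm_num

lemma mean_iff (a : ℕ → ℤ) (t : ℤ) (ht : t ≠ 0) (Q : ℝ → ℝ → Prop)
    (H1 : ∀ η : ℝ, 0 < η → ∃ η' : ℝ, 0 < η' ∧ ∀ σ ν : ℝ, 0 ≤ σ → 0 ≤ ν → |ν - σ| ≤ η' * max (2 * σ) 1 → Q η' σ → Q η ν) :
    Mean a t Q ↔ StA PO (fun p => a p = t) (fun p => a p = -t) (fun x => √x / Real.log x) Q := by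
  have hG : ∀ e : ℝ, 0 < e → ∀ᶠ x : ℕ in atTop, 0 < √x / Real.log x ∧ 1 / (√x / Real.log x) ≤ e := by
    intro e he
    have h1 : ∀ᶠ x : ℕ in atTop, 1 / e ≤ (x : ℝ) ^ (1 / 4 : ℝ) :=
      ((tendsto_rpow_atTop (by norm_num : (0 : ℝ) < 1 / 4)).comp tendsto_natCast_atTop_atTop).eventually_ge_atTop _
    filter_upwards [g_ge, h1] with x h2 h3
    have h4 : 0 < 1 / e := by positivity
    have h5 : 1 / e ≤ √x / Real.log x := h3.trans h2
    have h6 : 0 < √x / Real.log x := by linarith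
    refine ⟨h6, ?_⟩
    rw [div_le_iff₀ h6, ← div_le_iff₀' he]
    exact h5
  have key : ∀ x : ℕ, 0 < √x / Real.log x → ∀ e, 1 / (√x / Real.log x) ≤ e →
      |((piF a t x : ℝ) + piF a (-t) x) / (2 * (√x / Real.log x)) -
        (tot (PO x) (fun p => a p = t) (fun p => a p = -t) : ℝ) / (2 * (√x / Real.log x))| ≤ e := by
    intro x hx e he
    obtain ⟨h1, h2⟩ := tot_piF a t ht x
    rw [← sub_div, abs_of_nonneg (by apply div_nonneg <;> linarith)]
    refine le_trans ?_ he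
    rw [div_le_div_iff₀ (by linarith) hx]
    nlinarith
  constructor
  · intro h η hη
    obtain ⟨η', hη', hQ⟩ := H1 η hη
    filter_upwards [h η' hη', hG η' hη'] with x h1 h2
    have h3 := key x h2.1 η' h2.2
    refine hQ _ _ (div_nonneg (by positivity) (by linarith [h2.1])) (div_nonneg (by positivity) (by linarith [h2.1])) ?_ h1
    rw [abs_sub_comm]
    refine h3.trans ?_
    have : (1 : ℝ) ≤ max (2 * (((piF a t x : ℝ) + piF a (-t) x) / (2 * (√x / Real.log x)))) 1 := le_max_right _ _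
    nlinarith
  · intro h η hη
    obtain ⟨η', hη', hQ⟩ := H1 η hη
    filter_upwards [h η' hη', hG η' hη'] with x h1 h2
    have h3 := key x h2.1 η' h2.2
    refine hQ _ _ (div_nonneg (by positivity) (by linarith [h2.1])) (div_nonneg (by positivity) (by linarith [h2.1])) ?_ h1
    refine h3.trans ?_
    have : (1 : ℝ) ≤ max (2 * ((tot (PO x) (fun p => a p = t) (fun p => a p = -t) : ℝ) / (2 * (√x / Real.log x)))) 1 :=
      le_max_right _ _
    nlinarith

lemma main (a : ℕ → ℤ) (t : ℤ) (ht : t ≠ 0) (Q : ℝ → ℝ → Prop)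
    (H1 : ∀ η : ℝ, 0 < η → ∃ η' : ℝ, 0 < η' ∧ ∀ σ ν : ℝ, 0 ≤ σ → 0 ≤ ν → |ν - σ| ≤ η' * max (2 * σ) 1 → Q η' σ → Q η ν)
    (H2 : ∀ η : ℝ, 0 < η → ∃ η' : ℝ, 0 < η' ∧ ∀ σ ν : ℝ, 0 ≤ σ → 0 ≤ ν → |ν - σ| ≤ η' * max (2 * σ) 1 → Q η' ν → Q η σ) :
    [Mean a t Q, Range a t Q, Most a t Q, Some a t Q].TFAE := by
  have h := tfae PO (fun p => a p = t) (fun p => a p = -t) (fun x => √x / Real.log x) Q PO_prop (1 / 4) (by norm_num)
    g_ge H1 H2
  have e1 := mean_iff a t ht Q H1
  have e2 : Range a t Q ↔ StB PO (fun p => a p = t) (fun p => a p = -t) (fun x => √x / Real.log x) Q := by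
    unfold Range StB
    simp only [twist_eq a _ t ht]
  have e3 : Most a t Q ↔ StC PO (fun p => a p = t) (fun p => a p = -t) (fun x => √x / Real.log x) Q := by
    unfold Most StC
    simp only [twist_eq a _ t ht]
  have e4 : Some a t Q ↔ StD PO (fun p => a p = t) (fun p => a p = -t) (fun x => √x / Real.log x) Q := by
    unfold Some StD
    simp only [twist_eq a _ t ht]
  rw [e1, e2, e3, e4]
  exact h

/-- Let `(a_n)` be the coefficients of a form `f` as in the question (indeed any sequence of integers) and let `t ≠ 0`.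

(1) Upper bounds. For every `K ≥ 0` the following are equivalent: `π_f(x,t) + π_f(x,-t) ≤ (2 K + o(1)) √x / log x`;
for all but `N ^ (1-c)` of the quadratic twists `f_D`, `0 < |D| ≤ N`, one has `π_{f_D}(x,t) ≤ (K + η) √x / log x` for all `x`
between `(log N) ^ C` and `N ^ c`; at every large `x` this bound holds for all but a proportion `x ^ (-A)` of the twists, for
every `A`; at every large `x` it holds for at least a proportion `x ^ (-A)` of the twists, for some `A`.

(2) Asymptotic formulas: the same with `π = (K + o(1)) √x / log x` in place of the bounds.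

(3) The bound of the question holds for `f` at `t` and at `-t` (and so for all quadratic twists of `f`) if and only if there
are `K` and `A` such that for all large `x` the bound `π_{f_D}(x,t) ≤ K √x / log x` holds for at least a proportion `x ^ (-A)`
of all quadratic twists. -/
theorem result (a : ℕ → ℤ) (t : ℤ) (ht : t ≠ 0) :
    (∀ K : ℝ, 0 ≤ K → [Mean a t (fun η s => s ≤ K + η), Range a t (fun η s => s ≤ K + η),
      Most a t (fun η s => s ≤ K + η), Some a t (fun η s => s ≤ K + η)].TFAE) ∧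
    (∀ K : ℝ, 0 ≤ K → [Mean a t (fun η s => |s - K| ≤ η), Range a t (fun η s => |s - K| ≤ η),
      Most a t (fun η s => |s - K| ≤ η), Some a t (fun η s => |s - K| ≤ η)].TFAE) ∧
    ((∃ K : ℝ, ∀ᶠ x : ℕ in atTop, (piF a t x : ℝ) ≤ K * (√x / Real.log x) ∧ (piF a (-t) x : ℝ) ≤ K * (√x / Real.log x)) ↔
      ∃ K A : ℝ, ∀ᶠ x : ℕ in atTop, ∃ᶠ N : ℕ in atTop, (x : ℝ) ^ (-A) * N ≤
        (({D : ℤ | D ≠ 0 ∧ |D| ≤ N ∧ (piTwist a D t x : ℝ) ≤ K * (√x / Real.log x)}.ncard : ℕ) : ℝ)) := by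
  have hup : ∀ K : ℝ, 0 ≤ K → [Mean a t (fun η s => s ≤ K + η), Range a t (fun η s => s ≤ K + η),
      Most a t (fun η s => s ≤ K + η), Some a t (fun η s => s ≤ K + η)].TFAE := fun K hK =>
    main a t ht _ (upper_H1 K hK) (upper_H2 K hK)
  refine ⟨hup, fun K hK => main a t ht _ (asy_H1 K hK) (asy_H2 K hK), ?_, ?_⟩
  · rintro ⟨K, hK⟩
    have hK0 : (0 : ℝ) ≤ |K| := abs_nonneg K
    have hA : Mean a t (fun η s => s ≤ |K| + η) := by
      intro η hη
      filter_upwards [hK, g_ge, eventually_ge_atTop 1] with x hx hg hx1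
      have hx0 : (0 : ℝ) < x := by exact_mod_cast hx1
      have hg0 : 0 < √x / Real.log x := lt_of_lt_of_le (by positivity) hg
      rw [div_le_iff₀ (by linarith)]
      have := le_abs_self K
      nlinarith [mul_le_mul_of_nonneg_right this hg0.le, mul_pos hη hg0]
    have hD := ((hup |K| hK0).out 0 3).1 hA
    obtain ⟨A, hA⟩ := hD 1 one_pos
    refine ⟨|K| + 1, A, ?_⟩
    filter_upwards [hA, g_ge, eventually_ge_atTop 1] with x hx hg hx1
    have hx0 : (0 : ℝ) < x := by exact_mod_cast hx1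
    have hg0 : 0 < √x / Real.log x := lt_of_lt_of_le (by positivity) hg
    simpa only [div_le_iff₀ hg0] using hx
  · rintro ⟨K, A, hK⟩
    have hK0 : (0 : ℝ) ≤ |K| := abs_nonneg K
    have hD : Some a t (fun η s => s ≤ |K| + η) := by
      intro η hη
      refine ⟨A, ?_⟩
      filter_upwards [hK, g_ge, eventually_ge_atTop 1] with x hx hg hx1
      have hx0 : (0 : ℝ) < x := by exact_mod_cast hx1
      have hg0 : 0 < √x / Real.log x := lt_of_lt_of_le (by positivity) hg
      refine hx.mono fun N hN => hN.trans ?_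
      have hsub : {D : ℤ | D ≠ 0 ∧ |D| ≤ N ∧ (piTwist a D t x : ℝ) ≤ K * (√x / Real.log x)} ⊆
          {D : ℤ | D ≠ 0 ∧ |D| ≤ N ∧ (piTwist a D t x : ℝ) / (√x / Real.log x) ≤ |K| + η} := by
        rintro D ⟨h1, h2, h3⟩
        refine ⟨h1, h2, ?_⟩
        rw [div_le_iff₀ hg0]
        have := le_abs_self K
        nlinarith [mul_le_mul_of_nonneg_right this hg0.le, mul_pos hη hg0]
      exact_mod_cast Set.ncard_le_ncard hsub (fin_set N _)
    have hA := ((hup |K| hK0).out 3 0).1 hD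
    refine ⟨2 * (|K| + 1), ?_⟩
    filter_upwards [hA 1 one_pos, g_ge, eventually_ge_atTop 1] with x hx hg hx1
    have hx0 : (0 : ℝ) < x := by exact_mod_cast hx1
    have hg0 : 0 < √x / Real.log x := lt_of_lt_of_le (by positivity) hg
    rw [div_le_iff₀ (by linarith)] at hx
    have h1 : (0 : ℝ) ≤ piF a t x := Nat.cast_nonneg _
    have h2 : (0 : ℝ) ≤ piF a (-t) x := Nat.cast_nonneg _
    constructor <;> linarith

end

end Pool.Agent.Results.MP_631487_nt.TwistDichotomy
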